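import Mathlib
import Pool.Agent.H.MP_148afe_an.A

set_option autoImplicit false

namespace Pool.Agent.Results.MP_831e37_an.Yes

open MeasureTheory FourierTransform Real Filter Topology Pool.Agent.H.MP_148afe_an SchwartzMap Polynomial
open scoped InnerProductSpace

variable {d : ℕ}

/-- the span of convolutions of continuous compactly supported functions -/
def K2 (d : ℕ) : Submodule ℂ (E d → ℂ) := Submodule.span ℂ {g | ∃ f h, Cc f ∧ Cc h ∧ g = cv f h}

/-- the measure with density `G` is the Fourier transform of the one with density `F` -/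
def FT (F G : E d → ℂ) : Prop :=
  LocallyIntegrable F ∧ LocallyIntegrable G ∧ ∀ g ∈ K2 d, Integrable (fun x => ‖ck g x‖ * ‖G x‖) ∧
    ∫ x, g x * F x = ∫ x, ck g x * G x

theorem ft (F : 𝓢(E d, ℂ)) : FT F (𝓕 F : 𝓢(E d, ℂ)) := by
  refine ⟨F.integrable.locallyIntegrable, (𝓕 F).integrable.locallyIntegrable, fun g hg => ?_⟩
  have i : Integrable g := by
    induction hg using Submodule.span_induction with
    | mem _ h => obtain ⟨f, h, a, b, rfl⟩ := h; exact cv_int a.int b.int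
    | zero => exact integrable_zero _ _ _
    | add _ _ _ _ a b => exact a.add b
    | smul c _ _ a => exact a.smul c
  refine ⟨by simpa using (ck_mul i (𝓕 F).integrable).norm, Eq.trans ?_ (dual i (𝓕 F).integrable)⟩
  rw [ck, ← fourierInv_coe, fourierInv_fourier_eq]

theorem poly (m : ℕ) {δ : ℝ} (h : 0 < δ) : ∃ p : ℂ[X], (∀ j < m, p.coeff j = 0) ∧
    ∀ z : ℂ, ‖1 - z‖ ≤ 2⁻¹ → ‖p.eval z - 1‖ ≤ δ := by
  obtain ⟨r, r0, hr⟩ := Metric.continuousAt_iff.1 (show ContinuousAt (fun u : ℂ => (1 - u) ^ m) 0 by fun_prop) δ h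
  obtain ⟨k, hk⟩ := exists_pow_lt_of_lt_one r0 (show (2⁻¹ : ℝ) < 1 by norm_num)
  refine ⟨(1 - (1 - X) ^ k) ^ m, X_pow_dvd_iff.1 (pow_dvd_pow_of_dvd (X_dvd_iff.2 ?_) m), fun z hz => ?_⟩
  · simp [coeff_zero_eq_eval_zero]
  simpa [dist_eq_norm] using (hr (x := (1 - z) ^ k) (by
    simpa using (pow_le_pow_left₀ (norm_nonneg _) hz k).trans_lt hk)).le

theorem result (hd : 1 ≤ d) : ∃ (F G : ℕ → E d → ℂ) (H : E d → ℂ), (∀ n, FT (F n) (G n)) ∧
    LocallyIntegrable H ∧ ¬H =ᵐ[volume] 0 ∧ Vague F 0 ∧ Vague G H := by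
  let χ : ContDiffBump (0 : E d) := default
  let ψ : 𝓢(E d, ℂ) := (χ.hasCompactSupport.comp_left (g := Complex.ofRealCLM) (map_zero _)).toSchwartzMap
    (Complex.ofRealCLM.contDiff.comp χ.contDiff)
  let v : E d := EuclideanSpace.single ⟨0, hd⟩ 1
  have v1 : ‖v‖ = 1 := by simp [v]
  choose p p1 p2 using fun n : ℕ => poly (16 * (n + 1) ^ 2) (Nat.one_div_pos_of_nat (α := ℝ) (n := n))
  let a : ℕ → ℕ → E d := fun n j => (j / (16 * (n + 1)) : ℝ) • v
  let F : ℕ → 𝓢(E d, ℂ) := fun n => ∑ j ∈ (p n).support, (p n).coeff j • ψ.compSubConstCLM ℂ (a n j)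
  refine ⟨fun n => F n, fun n => (𝓕 (F n) : 𝓢(E d, ℂ)), (𝓕 ψ : 𝓢(E d, ℂ)), fun n => ft _, (𝓕 ψ).integrable.locallyIntegrable,
    fun h => ?_, fun g hg => ?_, fun g hg => ?_⟩
  · have : 𝓕 ψ = 0 := SchwartzMap.ext (congrFun (((𝓕 ψ).continuous.ae_eq_iff_eq _ continuous_zero).1 h))
    have := DFunLike.congr_fun ((fourierInv_fourier_eq (F := 𝓢(E d, ℂ)) ψ).symm.trans (congrArg _ this)) 0
    simp [ψ, χ.one_of_mem_closedBall, χ.rIn_pos.le] at this
  all_goals obtain ⟨R, hR⟩ := hg.2.isBounded.subset_closedBall 0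
  · refine tendsto_const_nhds.congr' ((tendsto_natCast_atTop_atTop.eventually_ge_atTop (R + χ.rOut)).mono
      fun n hn => integral_congr_ae (.of_forall fun x => ?_))
    by_cases z : g x = 0
    · simp [z]
    have := mem_closedBall_zero_iff.1 (hR (subset_tsupport _ z))
    simp only [F, Pi.zero_apply, mul_zero, SchwartzMap.sum_apply, SchwartzMap.smul_apply, compSubConstCLM_apply]
    rw [Finset.sum_eq_zero fun j hj => ?_, mul_zero]
    have h : ((16 * (n + 1) ^ 2 : ℕ) : ℝ) ≤ j := by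
      exact_mod_cast le_of_not_gt fun c => mem_support_iff.1 hj (p1 n j c)
    have e : n + 1 ≤ ‖a n j‖ := by
      rw [norm_smul, v1, mul_one, norm_of_nonneg (by positivity), le_div_iff₀ (by positivity)]
      push_cast at h
      linarith
    simpa [ψ] using .inr (χ.zero_of_le_dist (by
      rw [dist_zero_right]; linarith [norm_sub_norm_le (a n j) x, norm_sub_rev x (a n j)]))
  have i : ∀ u : 𝓢(E d, ℂ), Integrable fun x => g x * u x := fun u =>
    (hg.1.mul u.continuous).integrable_of_hasCompactSupport hg.2.mul_right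
  rw [tendsto_iff_norm_sub_tendsto_zero]
  refine squeeze_zero' (.of_forall fun _ => norm_nonneg _)
    ((tendsto_natCast_atTop_atTop.eventually_ge_atTop R).mono fun n hn => ?_) 
    (zero_mul (∫ x, ‖g x * 𝓕 ψ x‖) ▸ (tendsto_one_div_add_atTop_nhds_zero_nat (𝕜 := ℝ)).mul_const _)
  rw [← integral_sub (i _) (i _), ← integral_const_mul]
  refine norm_integral_le_of_norm_le ((i _).norm.const_mul _) (.of_forall fun x => ?_)
  by_cases z : g x = 0
  · simp [z]
  have := mem_closedBall_zero_iff.1 (hR (subset_tsupport _ z))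
  let t : ℝ := -(2 * π * (⟪v, x⟫_ℝ / (16 * (n + 1))))
  have e : 𝓕 (F n) x = (p n).eval (Complex.exp (Complex.I * t)) * 𝓕 ψ x := by
    rw [eval_eq_sum, Polynomial.sum, Finset.sum_mul, fourier_sum, SchwartzMap.sum_apply]
    refine Finset.sum_congr rfl fun j _ => ?_
    rw [FourierTransform.fourier_smul, SchwartzMap.smul_apply, smul_eq_mul, mul_assoc, fourier_coe, fourier_coe]
    congr 1
    refine (congrFun (VectorFourier.fourierIntegral_comp_add_right 𝐞 volume (innerₗ (E d)) ψ (-a n j)) x).trans ?_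
    rw [Circle.smul_def, smul_eq_mul, fourierChar_apply, ← Complex.exp_nat_mul]
    congr 2
    simp [a, t, inner_smul_left]
    ring
  rw [e, mul_left_comm, ← sub_one_mul, norm_mul]
  refine mul_le_mul_of_nonneg_right (p2 n _ ?_) (norm_nonneg _)
  rw [norm_sub_rev]
  refine norm_exp_I_mul_ofReal_sub_one_le.trans ?_
  have := abs_real_inner_le_norm v x
  rw [norm_eq_abs, abs_neg, abs_mul, abs_div, abs_of_pos two_pi_pos, abs_of_pos (a := 16 * _) (by positivity),
    ← mul_div_assoc, div_le_iff₀ (by positivity)]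
  nlinarith [pi_le_four, pi_pos, abs_nonneg ⟪v, x⟫_ℝ]

end Pool.Agent.Results.MP_831e37_an.Yes
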